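import Pool.Agent.Helper6.E38.Red

/-!
Module M2 (COMP) of MP_28e671_an: components of the sublevel set, volume from below.
-/

open MeasureTheory Set

namespace EHP

variable {ι : Type*} [Fintype ι] {c t : ι → ℝ}

theorem volume_EE_ne_top (hc : ∀ i, 0 < c i) (ht : ∀ i, t i ∈ Icc (-1 : ℝ) 1) :
    volume (EE c t) ≠ ⊤ := by
  rw [EE_eq hc]
  apply ne_top_of_le_ne_top _ (measure_mono (t := Icc (-2) 2) ?_)
  · simp
  · intro x hx
    by_contra hcon
    have : 2 ≤ |x| := by
      by_contra h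
      push Not at h
      exact hcon ⟨(abs_lt.1 h).1.le, (abs_lt.1 h).2.le⟩
    have := one_le_F_two hc ht this
    rw [mem_ofPred_eq] at hx
    linarith

/-- concavity of `log |x - t|` on an interval not containing `t` -/
theorem log_sub_concave {l r x s : ℝ} (hlx : l < x) (hxr : x < r) (hs : s < l ∨ r < s) :
    (r - x) / (r - l) * Real.log (l - s) + (x - l) / (r - l) * Real.log (r - s) ≤
      Real.log (x - s) := by
  have hlr : 0 < r - l := by linarith
  have hw0 : 0 ≤ (r - x) / (r - l) := div_nonneg (by linarith) hlr.le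
  have hw1 : (r - x) / (r - l) ≤ 1 := by rw [div_le_one hlr]; linarith
  have e1 : 1 - (r - x) / (r - l) = (x - l) / (r - l) := by field_simp; ring
  rcases hs with h | h
  · have := log_concave (x := l - s) (y := r - s) (w := (r - x) / (r - l)) (by linarith) (by linarith)
      hw0 hw1
    rw [e1] at this
    refine this.trans (le_of_eq ?_)
    congr 1
    field_simp
    ring
  · have := log_concave (x := s - l) (y := s - r) (w := (r - x) / (r - l)) (by linarith) (by linarith)
      hw0 hw1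
    rw [e1] at this
    rw [← Real.log_neg_eq_log (l - s), ← Real.log_neg_eq_log (r - s), ← Real.log_neg_eq_log (x - s),
      neg_sub, neg_sub, neg_sub]
    refine this.trans (le_of_eq ?_)
    congr 1
    field_simp
    ring

/-- between two points with `F = 1` and `F < 1` in between there is a root -/
theorem exists_root_between (hc : ∀ i, 0 < c i) {l r x : ℝ} (hl : F c t l = 1) (hr : F c t r = 1)
    (hlx : l < x) (hxr : x < r) (hx : F c t x < 1) : ∃ i, l < t i ∧ t i < r := by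
  by_contra hcon
  push Not at hcon
  have hnl := ne_root_of_one_le hc hl.ge
  have hnr := ne_root_of_one_le hc hr.ge
  have hside : ∀ i, t i < l ∨ r < t i := by
    intro i
    rcases lt_or_ge (t i) l with h | h
    · exact Or.inl h
    · have h1 : l < t i := lt_of_le_of_ne h (hnl i)
      exact Or.inr (lt_of_le_of_ne (hcon i h1) (hnr i))
  have hnx : ∀ i, x ≠ t i := by
    intro i h
    rcases hside i with h1 | h1 <;> linarith
  rw [F_lt_iff hnx] at hx
  have key : (r - x) / (r - l) * pot c t l + (x - l) / (r - l) * pot c t r ≤ pot c t x := by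
    unfold pot
    rw [Finset.mul_sum, Finset.mul_sum, ← Finset.sum_add_distrib]
    apply Finset.sum_le_sum
    intro i _
    have := mul_le_mul_of_nonneg_left (log_sub_concave hlx hxr (hside i)) (hc i).le
    linarith
  rw [pot_eq_zero_of_eq_one hc hl, pot_eq_zero_of_eq_one hc hr] at key
  linarith

/-- the components inside `(e, a)` -/
def compSet (c t : ι → ℝ) (e a : ℝ) : Set (ℝ × ℝ) :=
  {I | e ≤ I.1 ∧ I.1 < I.2 ∧ I.2 ≤ a ∧ F c t I.1 = 1 ∧ F c t I.2 = 1 ∧
    ∀ x ∈ Ioo I.1 I.2, F c t x < 1}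

theorem compSet_sep {e a : ℝ} {I J : ℝ × ℝ} (hI : I ∈ compSet c t e a) (hJ : J ∈ compSet c t e a)
    (hne : I ≠ J) : I.2 ≤ J.1 ∨ J.2 ≤ I.1 := by
  obtain ⟨-, h2, -, h4, h5, h6⟩ := hI
  obtain ⟨-, g2, -, g4, g5, g6⟩ := hJ
  by_contra hcon
  push Not at hcon
  obtain ⟨k1, k2⟩ := hcon
  apply hne
  have e1 : I.1 = J.1 := by
    rcases lt_trichotomy I.1 J.1 with h | h | h
    · have := h6 J.1 ⟨h, k1⟩
      linarith
    · exact h
    · have := g6 I.1 ⟨h, k2⟩
      linarith
  have e2 : I.2 = J.2 := by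
    rcases lt_trichotomy I.2 J.2 with h | h | h
    · have := g6 I.2 ⟨k1, h⟩
      linarith
    · exact h
    · have := h6 J.2 ⟨k2, h⟩
      linarith
  exact Prod.ext e1 e2

theorem compSet_finite (hc : ∀ i, 0 < c i) (e a : ℝ) : (compSet c t e a).Finite := by
  have hex : ∀ I : compSet c t e a, ∃ i, I.1.1 < t i ∧ t i < I.1.2 := by
    intro I
    obtain ⟨-, h2, -, h4, h5, h6⟩ := I.2
    exact exists_root_between hc h4 h5 (x := (I.1.1 + I.1.2) / 2) (by linarith) (by linarith)
      (h6 _ ⟨by linarith, by linarith⟩)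
  choose f hf using hex
  have hinj : Function.Injective f := by
    intro I J hIJ
    by_contra hne
    have hne' : (I : ℝ × ℝ) ≠ J := fun h => hne (Subtype.ext h)
    have h1 := hf I
    have h2 := hf J
    rw [hIJ] at h1
    rcases compSet_sep I.2 J.2 hne' with h | h <;> linarith [h1.1, h1.2, h2.1, h2.2]
  have := Finite.of_injective f hinj
  exact Set.toFinite _

theorem components {c t : ι → ℝ} {a b m e α : ℝ} (N : Nrm c t a b m e α) :
    ∃ S : Finset (ℝ × ℝ),
      (∀ I ∈ S, e ≤ I.1 ∧ I.1 < I.2 ∧ I.2 ≤ a ∧ pot c t I.1 = 0 ∧ pot c t I.2 = 0 ∧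
        (∀ i, t i ≠ I.1) ∧ (∀ i, t i ≠ I.2) ∧ ∀ x ∈ Ioo I.1 I.2, x ∈ EE c t) ∧
      (∀ I ∈ S, ∀ J ∈ S, I ≠ J → I.2 ≤ J.1 ∨ J.2 ≤ I.1) ∧
      (∀ x, e < x → x < a → x ∈ EE c t → ∃ I ∈ S, x ∈ Ioo I.1 I.2) := by
  have hc := N.pos
  have hcont := F_cont (t := t) hc
  refine ⟨(compSet_finite hc e a (t := t)).toFinset, ?_, ?_, ?_⟩
  · intro I hI
    rw [Set.Finite.mem_toFinset] at hI
    obtain ⟨h1, h2, h3, h4, h5, h6⟩ := hI
    refine ⟨h1, h2, h3, pot_eq_zero_of_eq_one hc h4, pot_eq_zero_of_eq_one hc h5,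
      fun i => (ne_root_of_one_le hc h4.ge i).symm, fun i => (ne_root_of_one_le hc h5.ge i).symm, ?_⟩
    intro x hx
    rw [EE_eq hc]
    exact h6 x hx
  · intro I hI J hJ hne
    rw [Set.Finite.mem_toFinset] at hI hJ
    exact compSet_sep hI hJ hne
  · intro x hex hxa hx
    rw [EE_eq hc, mem_ofPred_eq] at hx
    have hna : ∀ i, a ≠ t i := by
      intro i h
      rcases N.split i with h1 | h1
      · linarith
      · rw [h1] at h
        linarith [N.a_hi]
    have hFa : 1 ≤ F c t a := by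
      rw [F_ge_iff hna, N.pa]
    have hFe : 1 ≤ F c t e := by
      have hne : ∀ i, e ≠ t i := fun i => (N.e_not i).symm
      rw [F_ge_iff hne]
      rcases eq_or_lt_of_le N.e_lo with h | h
      · have := (N.pe' h.symm).1
        rwa [h] at this
      · rw [(N.pe h).1]
    obtain ⟨l, hl1, hl2, hl3, hl4⟩ := exists_last hcont hex.le hFe hx
    obtain ⟨r, hr1, hr2, hr3, hr4⟩ := exists_first hcont hxa.le hx hFa
    refine ⟨(l, r), ?_, hl2, hr1⟩
    rw [Set.Finite.mem_toFinset]
    refine ⟨hl1, hl2.trans hr1, hr2, hl3, hr3, ?_⟩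
    intro y hy
    rcases le_or_gt y x with h | h
    · exact hl4 y hy.1 h
    · exact hr4 y h.le hy.2

/-- volume from below: sum over the components, the component of `-1` and `(a,b)` -/
theorem volume_ge {c t : ι → ℝ} {a b m e α : ℝ} (N : Nrm c t a b m e α) (S : Finset (ℝ × ℝ))
    (h1 : ∀ I ∈ S, e ≤ I.1 ∧ I.1 < I.2 ∧ I.2 ≤ a ∧ ∀ x ∈ Ioo I.1 I.2, x ∈ EE c t)
    (h2 : ∀ I ∈ S, ∀ J ∈ S, I ≠ J → I.2 ≤ J.1 ∨ J.2 ≤ I.1) :
    (b - a) + (1 + e + α) + ∑ I ∈ S, (I.2 - I.1) ≤ (volume (EE c t)).toReal := by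
  have hc := N.pos
  have hfin := volume_EE_ne_top hc N.mem
  have hab : 0 ≤ b - a := by linarith [N.a_hi, N.b_lo]
  have hea : 0 ≤ 1 + e + α := by linarith [N.e_lo, N.α_lo]
  have hSnn : ∀ I ∈ S, 0 ≤ I.2 - I.1 := fun I hI => by linarith [(h1 I hI).2.1]
  -- left part
  have hL : Ioo (-1 - α) e ⊆ EE c t := by
    rcases eq_or_lt_of_le N.e_lo with h | h
    · have := (N.pe' h.symm).2
      rw [this, ← h]
      simp
    · exact (N.pe h).2.1
  set U := ⋃ I ∈ S, Ioo I.1 I.2 with hU
  have hUvol : volume U = ENNReal.ofReal (∑ I ∈ S, (I.2 - I.1)) := by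
    rw [hU, measure_biUnion_finset]
    · rw [ENNReal.ofReal_sum_of_nonneg hSnn]
      exact Finset.sum_congr rfl fun I _ => Real.volume_Ioo
    · intro I hI J hJ hne
      rw [Function.onFun, Set.disjoint_left]
      intro x hx hx'
      rcases h2 I hI J hJ hne with h | h
      · linarith [hx.2, hx'.1]
      · linarith [hx.1, hx'.2]
    · intro I _
      exact measurableSet_Ioo
  have hUsub : U ⊆ Ioo e a := by
    intro x hx
    rw [hU, mem_iUnion₂] at hx
    obtain ⟨I, hI, hx⟩ := hx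
    obtain ⟨g1, -, g3, -⟩ := h1 I hI
    exact ⟨by linarith [hx.1], by linarith [hx.2]⟩
  have hUE : U ⊆ EE c t := by
    intro x hx
    rw [hU, mem_iUnion₂] at hx
    obtain ⟨I, hI, hx⟩ := hx
    exact (h1 I hI).2.2.2 x hx
  have hUm : MeasurableSet U := by
    rw [hU]
    exact Finset.measurableSet_biUnion _ fun I _ => measurableSet_Ioo
  have hsub : (Ioo a b ∪ Ioo (-1 - α) e) ∪ U ⊆ EE c t := by
    intro x hx
    rcases hx with (hx | hx) | hx
    · exact N.neg x hx
    · exact hL hx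
    · exact hUE hx
  have hd1 : Disjoint (Ioo a b) (Ioo (-1 - α) e) := by
    rw [Set.disjoint_left]
    intro x hx hx'
    linarith [hx.1, hx'.2, N.e_hi]
  have hd2 : Disjoint (Ioo a b ∪ Ioo (-1 - α) e) U := by
    rw [Set.disjoint_left]
    intro x hx hx'
    have := hUsub hx'
    rcases hx with hx | hx
    · linarith [hx.1, this.2]
    · linarith [hx.2, this.1]
  have hvol : volume ((Ioo a b ∪ Ioo (-1 - α) e) ∪ U) =
      ENNReal.ofReal ((b - a) + (1 + e + α) + ∑ I ∈ S, (I.2 - I.1)) := by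
    rw [measure_union hd2 hUm, measure_union hd1 measurableSet_Ioo, hUvol, Real.volume_Ioo,
      Real.volume_Ioo, ENNReal.ofReal_add (by positivity) (Finset.sum_nonneg hSnn),
      ENNReal.ofReal_add hab hea]
    congr 3
    ring
  have h3 := measure_mono (μ := volume) hsub
  rw [hvol] at h3
  exact (ENNReal.ofReal_le_iff_le_toReal hfin).1 h3

end EHP
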