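import Pool.Agent.Helper6.E38.Merge

/-!
Module M1 (RED) of MP_28e671_an: reduction to a normalized system.
-/

open MeasureTheory Set

namespace EHP

/-- first point with value at least one -/
theorem exists_first {g : ℝ → ℝ} (hg : Continuous g) {l r : ℝ} (hlr : l ≤ r) (h1 : g l < 1)
    (h2 : 1 ≤ g r) : ∃ b, l < b ∧ b ≤ r ∧ g b = 1 ∧ ∀ x, l ≤ x → x < b → g x < 1 := by
  set S : Set ℝ := Icc l r ∩ {x | 1 ≤ g x} with hS
  have hne : S.Nonempty := ⟨r, ⟨hlr, le_rfl⟩, h2⟩
  have hcl : IsCompact S := isCompact_Icc.inter_right (isClosed_le continuous_const hg)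
  have hb := hcl.sInf_mem hne
  have hbdd : BddBelow S := ⟨l, fun x hx => hx.1.1⟩
  set b := sInf S with hbdef
  have hmin : ∀ x, l ≤ x → x < b → g x < 1 := by
    intro x hx hxb
    by_contra hcon
    push Not at hcon
    have : x ∈ S := ⟨⟨hx, hxb.le.trans hb.1.2⟩, hcon⟩
    exact absurd (csInf_le hbdd this) (not_le.2 hxb)
  have hlb : l < b := by
    rcases eq_or_lt_of_le hb.1.1 with h | h
    · have := hb.2
      rw [mem_ofPred_eq, ← h] at this
      linarith
    · exact h
  refine ⟨b, hlb, hb.1.2, ?_, hmin⟩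
  apply le_antisymm _ hb.2
  by_contra hcon
  push Not at hcon
  -- near b values > 1, contradiction
  have hop : ∀ᶠ x in nhds b, 1 < g x := hg.continuousAt.eventually (lt_mem_nhds hcon)
  have hop' : ∀ᶠ x in nhdsWithin b (Iio b), 1 < g x := hop.filter_mono nhdsWithin_le_nhds
  have h3 : ∀ᶠ x in nhdsWithin b (Iio b), x ∈ Ioo l b := Ioo_mem_nhdsLT hlb
  obtain ⟨x, hx1, hx2⟩ := (hop'.and h3).exists
  have := hmin x hx2.1.le hx2.2
  linarith

/-- last point with value at least one -/
theorem exists_last {g : ℝ → ℝ} (hg : Continuous g) {l r : ℝ} (hlr : l ≤ r) (h1 : 1 ≤ g l)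
    (h2 : g r < 1) : ∃ a, l ≤ a ∧ a < r ∧ g a = 1 ∧ ∀ x, a < x → x ≤ r → g x < 1 := by
  obtain ⟨b, hb1, hb2, hb3, hb4⟩ := exists_first (g := fun x => g (-x)) (hg.comp continuous_neg)
    (neg_le_neg hlr) (by simpa using h2) (by simpa using h1)
  refine ⟨-b, by linarith, by linarith, hb3, fun x hx hxr => ?_⟩
  have := hb4 (-x) (by linarith) (by linarith)
  simpa using this

variable {ι : Type*} [Fintype ι] {c t : ι → ℝ}

/-- pre-normalized systems -/
structure Pre (c t : ι → ℝ) (a : ℝ) : Prop where
  mem : ∀ i, t i ∈ Icc (-1 : ℝ) 1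
  a_lo : -1 < a
  a_hi : a ≤ 0
  split : ∀ i, t i < a ∨ t i = 1
  ex : ∃ i, t i = 1
  Fa : 1 ≤ F c t a
  zero : 1 ≤ F c t 0 → ∀ x ∈ Ioo (0:ℝ) 1, F c t x < 1

/-- right merge: first normalization -/
theorem pre_right (hc : ∀ i, 0 < c i) (ht : ∀ i, t i ∈ Icc (-1 : ℝ) 1)
    (h01 : ∀ x ∈ Ioo (0:ℝ) 1, F c t x < 1) {x₀ : ℝ} (hx₀ : -1 < x₀) (hx₀' : x₀ ≤ 0)
    (hF : 1 ≤ F c t x₀) :
    ∃ (t' : ι → ℝ) (a : ℝ), Pre c t' a ∧
      volume {x | F c t' x < 1} ≤ volume {x | F c t x < 1} := by
  classical
  have hcont := F_cont (t := t) hc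
  have hhalf : F c t (1/2) < 1 := h01 _ (by norm_num)
  obtain ⟨a, ha1, ha2, ha3, ha4⟩ := exists_last hcont (by linarith : x₀ ≤ 1/2) hF hhalf
  have ha0 : a ≤ 0 := by
    by_contra hcon
    push Not at hcon
    have := h01 a ⟨hcon, by linarith⟩
    linarith
  obtain ⟨b, hb1, hb2, hb3, hb4⟩ := exists_first hcont (by norm_num : (1:ℝ)/2 ≤ 2) hhalf
    (one_le_F_two hc ht (by norm_num))
  have hb : 1 ≤ b := by
    by_contra hcon
    push Not at hcon
    have := h01 b ⟨by linarith, hcon⟩
    linarith
  have neg : ∀ x ∈ Ioo a b, F c t x < 1 := by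
    intro x hx
    rcases le_or_gt x (1/2) with h | h
    · exact ha4 x hx.1 h
    · exact hb4 x h.le hx.2
  obtain ⟨⟨i₀, hi₀⟩, hmono, hvol⟩ := merge hc ht (by linarith : a < 1) hb ha3 hb3 neg
  have hna := ne_root_of_one_le hc ha3.ge
  refine ⟨mrg t a, a, ⟨?_, by linarith, ha0, ?_, ⟨i₀, by simp [mrg, hi₀]⟩,
    ha3.ge.trans (hmono a le_rfl), ?_⟩, hvol⟩
  · intro i
    unfold mrg
    split_ifs
    · norm_num
    · exact ht i
  · intro i
    unfold mrg
    split_ifs with h
    · exact Or.inr rfl
    · exact Or.inl (lt_of_le_of_ne (not_lt.1 h) (hna i).symm)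
  · -- zero
    intro h0 x hx
    -- all new roots are ±1; 0 and a: then a = 0 and nothing moved
    have hr := roots_of_F_zero hc (t := mrg t a) (by
      intro i
      unfold mrg
      split_ifs
      · norm_num
      · exact ht i) h0
    -- weights
    rcases eq_or_lt_of_le ha0 with haz | haz
    · -- a = 0: original roots all ±1
      have hr' := roots_of_F_zero hc ht (by rw [haz] at ha3; exact ha3.ge)
      have : mrg t a = t := by
        funext i
        unfold mrg
        rcases hr' i with h | h
        · rw [h]; split_ifs <;> rfl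
        · rw [h, if_neg (by linarith)]
      rw [this]
      exact h01 x hx
    · -- a < 0 : step 0
      by_contra hcon
      push Not at hcon
      have : Nonempty ι := ⟨i₀⟩
      exact step0 hc (t := mrg t a) (by
        intro i
        unfold mrg
        split_ifs
        · norm_num
        · exact ht i) (x := a) (y := x) ⟨by linarith, haz⟩ hx (ha3.ge.trans (hmono a le_rfl)) hcon

/-- left merge: second normalization -/
theorem pre_left (hc : ∀ i, 0 < c i) {a : ℝ} (N : Pre c t a) :
    ∃ (t' : ι → ℝ) (a : ℝ), Pre c t' a ∧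
      (1 ≤ F c t' (-1) ∨ ∃ e, -1 < e ∧ e ≤ a ∧ F c t' e = 1 ∧ (∀ x, -1 ≤ x → x < e → F c t' x < 1) ∧
        ∀ i, t' i < e → t' i = -1) ∧
      volume {x | F c t' x < 1} ≤ volume {x | F c t x < 1} := by
  classical
  by_cases h1 : 1 ≤ F c t (-1)
  · exact ⟨t, a, N, Or.inl h1, le_rfl⟩
  push Not at h1
  have hcont := F_cont (t := t) hc
  obtain ⟨e, he1, he2, he3, he4⟩ := exists_first hcont N.a_lo.le h1 N.Fa
  obtain ⟨d, hd1, hd2, hd3, hd4⟩ := exists_last hcont (by norm_num : (-2:ℝ) ≤ -1)
    (one_le_F_two hc N.mem (by norm_num)) h1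
  -- reflect
  have key := merge (c := c) (t := fun i => - t i) (a := -e) (b := -d) hc
    (fun i => ⟨by linarith [(N.mem i).2], by linarith [(N.mem i).1]⟩) (by linarith) (by linarith)
    (by rw [F_neg, neg_neg]; exact he3) (by rw [F_neg, neg_neg]; exact hd3)
    (by
      intro x hx
      rw [F_neg]
      rcases le_or_gt (-x) (-1) with h | h
      · exact hd4 _ (by linarith [hx.2]) h
      · exact he4 _ h.le (by linarith [hx.1]))
  obtain ⟨⟨i₁, hi₁⟩, hmono, hvol⟩ := key
  obtain ⟨t', ht'⟩ : ∃ t' : ι → ℝ, t' = fun i => if t i < e then -1 else t i := ⟨_, rfl⟩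
  have e1 : mrg (fun i => - t i) (-e) = fun i => - t' i := by
    funext i
    rw [ht']
    unfold mrg
    by_cases h : t i < e
    · simp [h]
    · have h' : ¬ (-e < - t i) := by linarith
      simp [h, h']
  rw [e1] at hmono hvol
  rw [volume_neg_sublevel, volume_neg_sublevel] at hvol
  have hmono' : ∀ x, e ≤ x → F c t x ≤ F c t' x := by
    intro x hx
    have := hmono (-x) (by linarith)
    rw [F_neg, F_neg, neg_neg] at this
    exact this
  have hne := ne_root_of_one_le hc he3.ge
  have hmem' : ∀ i, t' i ∈ Icc (-1 : ℝ) 1 := by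
    intro i
    rw [ht']
    simp only
    split_ifs
    · norm_num
    · exact N.mem i
  have hpre : Pre c t' a := by
    refine ⟨hmem', N.a_lo, N.a_hi, ?_, ?_, N.Fa.trans (hmono' a he2), ?_⟩
    · intro i
      rw [ht']
      simp only
      split_ifs
      · exact Or.inl N.a_lo
      · exact N.split i
    · obtain ⟨i, hi⟩ := N.ex
      refine ⟨i, ?_⟩
      rw [ht']
      simp only
      rw [if_neg, hi]
      rw [hi]
      linarith [N.a_hi]
    · intro h0 x hx
      rcases eq_or_lt_of_le N.a_hi with haz | haz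
      · have h0' : 1 ≤ F c t 0 := by rw [← haz]; exact N.Fa
        have hr' := roots_of_F_zero hc N.mem h0'
        have : t' = t := by
          funext i
          rw [ht']
          simp only
          rcases hr' i with h | h
          · rw [h, if_neg (by linarith)]
          · rw [h]; split_ifs <;> rfl
        rw [this]
        exact N.zero h0' x hx
      · by_contra hcon
        push Not at hcon
        have : Nonempty ι := ⟨i₁⟩
        exact step0 hc hmem' (x := a) (y := x) ⟨N.a_lo, haz⟩ hx (N.Fa.trans (hmono' a he2)) hcon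
  have hroot1 : t' i₁ = -1 := by
    rw [ht']
    simp only
    rw [if_pos (by linarith)]
  have hF1 : F c t' (-1) < 1 := by
    rw [← hroot1, F_root hc i₁]
    norm_num
  obtain ⟨e', he1', he2', he3', he4'⟩ := exists_first (F_cont (t := t') hc) he1.le hF1
    (he3.ge.trans (hmono' e le_rfl))
  refine ⟨t', a, hpre, Or.inr ⟨e', he1', he2'.trans he2, he3', he4', ?_⟩, hvol⟩
  intro i hi
  rw [ht'] at hi ⊢
  simp only at hi ⊢
  split_ifs at hi ⊢ with h
  · rfl
  · exfalso
    exact h (hi.trans_le he2')

theorem half_le (hc : ∀ i, 0 < c i) (hsum : ∑ i, c i = 1) {a m : ℝ} (ht : ∀ i, t i ∈ Icc (-1 : ℝ) 1)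
    (ha : -1 < a) (ha' : a ≤ 0) (split : ∀ i, t i < a ∨ t i = 1) (ex : ∃ i, t i = 1)
    (Fa : F c t a = 1) (hneg : ∀ x, a < x → x ≤ 1 → F c t x < 1)
    (hm : m = ∑ i, if t i = 1 then c i else 0) : 1 / 2 ≤ m := by
  classical
  by_contra hcon
  push Not at hcon
  have hmpos : 0 < m := by
    obtain ⟨i, hi⟩ := ex
    rw [hm]
    apply Finset.sum_pos'
    · intro j _
      split_ifs
      · exact (hc j).le
      · exact le_rfl
    · exact ⟨i, Finset.mem_univ i, by rw [if_pos hi]; exact hc i⟩
  have hm' : ∑ i, (if t i = 1 then 0 else c i) = 1 - m := by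
    rw [hm, ← hsum, ← Finset.sum_sub_distrib]
    refine Finset.sum_congr rfl fun i _ => ?_
    split_ifs <;> ring
  rcases eq_or_lt_of_le ha' with haz | haz
  · -- all roots ±1
    have hr := roots_of_F_zero hc ht (by rw [← haz]; exact Fa.ge)
    obtain ⟨x, hx⟩ : ∃ x, x = 1 - 2 * m := ⟨_, rfl⟩
    have h1 := hneg x (by linarith) (by linarith)
    have hne : ∀ i, x ≠ t i := by
      intro i
      rcases hr i with h | h <;> rw [h, hx] <;> intro h' <;> linarith
    rw [F_lt_iff hne] at h1
    have h2 : pot c t x = m * Real.log (2 * m) + (1 - m) * Real.log (2 * (1 - m)) := by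
      have : ∀ i, c i * Real.log (x - t i) = (if t i = 1 then c i else 0) * Real.log (2 * m) +
          (if t i = 1 then 0 else c i) * Real.log (2 * (1 - m)) := by
        intro i
        rcases hr i with h | h
        · rw [if_pos h, if_pos h, h, hx, ← Real.log_neg_eq_log]
          ring_nf
        · rw [if_neg (by rw [h]; norm_num), if_neg (by rw [h]; norm_num), h, hx]
          ring_nf
      unfold pot
      simp only [this, Finset.sum_add_distrib, ← Finset.sum_mul, ← hm, hm']
    have h3 : 1 - (2 * m)⁻¹ ≤ Real.log (2 * m) := Real.one_sub_inv_le_log_of_pos (by linarith)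
    have h4 : 1 - (2 * (1 - m))⁻¹ ≤ Real.log (2 * (1 - m)) :=
      Real.one_sub_inv_le_log_of_pos (by linarith)
    have h5 := mul_le_mul_of_nonneg_left h3 hmpos.le
    have h6 := mul_le_mul_of_nonneg_left h4 (by linarith : 0 ≤ 1 - m)
    have e5 : m * (1 - (2 * m)⁻¹) = m - 1 / 2 := by field_simp
    have e6 : (1 - m) * (1 - (2 * (1 - m))⁻¹) = (1 - m) - 1 / 2 := by
      have : 1 - m ≠ 0 := by linarith
      field_simp
    linarith
  · have hP := pot_eq_zero_of_eq_one hc Fa
    have hle : ∀ i, c i * Real.log (a - t i) ≤ (if t i = 1 then c i else 0) * Real.log (1 - a) +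
          (if t i = 1 then 0 else c i) * Real.log (1 + a) := by
      intro i
      rcases split i with h | h
      · rw [if_neg (by linarith), if_neg (by linarith), zero_mul, zero_add]
        apply mul_le_mul_of_nonneg_left _ (hc i).le
        exact Real.log_le_log (by linarith) (by linarith [(ht i).1])
      · rw [if_pos h, if_pos h, h, zero_mul, add_zero, ← Real.log_neg_eq_log, neg_sub]
    have h2 : pot c t a ≤ m * Real.log (1 - a) + (1 - m) * Real.log (1 + a) := by
      unfold pot
      refine (Finset.sum_le_sum fun i _ => hle i).trans (le_of_eq ?_)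
      simp only [Finset.sum_add_distrib, ← Finset.sum_mul, ← hm, hm']
    have h3 : Real.log (1 + a) < 0 := Real.log_neg (by linarith) (by linarith)
    have h4 : Real.log (1 - a) + Real.log (1 + a) ≤ 0 := by
      rw [← Real.log_mul (by linarith) (by linarith)]
      apply Real.log_nonpos
      · nlinarith
      · nlinarith [sq_nonneg a]
    nlinarith

/-- **Module M1.** -/
theorem reduce {c t : ι → ℝ} (S : Sys c t) :
    2 ≤ (volume (EE c t)).toReal ∨
    ∃ (t' : ι → ℝ) (a b m e α : ℝ), Nrm c t' a b m e α ∧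
      (volume (EE c t')).toReal ≤ (volume (EE c t)).toReal := by
  classical
  have hc := S.pos
  have hfin : ∀ t' : ι → ℝ, (∀ i, t' i ∈ Icc (-1 : ℝ) 1) → volume {x | F c t' x < 1} ≠ ⊤ := by
    intro t' ht'
    apply ne_top_of_le_ne_top _ (measure_mono (t := Icc (-2) 2) ?_)
    · simp
    · intro x hx
      by_contra hcon
      have : 2 ≤ |x| := by
        by_contra h
        push Not at h
        exact hcon ⟨(abs_lt.1 h).1.le, (abs_lt.1 h).2.le⟩
      have := one_le_F_two hc ht' this
      rw [mem_ofPred_eq] at hx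
      linarith
  -- main part for systems with (0,1) in the sublevel set
  have main : ∀ t₁ : ι → ℝ, (∀ i, t₁ i ∈ Icc (-1 : ℝ) 1) → (∀ x ∈ Ioo (0:ℝ) 1, F c t₁ x < 1) →
      2 ≤ (volume {x | F c t₁ x < 1}).toReal ∨
      ∃ (t' : ι → ℝ) (a b m e α : ℝ), Nrm c t' a b m e α ∧
        (volume {x | F c t' x < 1}).toReal ≤ (volume {x | F c t₁ x < 1}).toReal := by
    intro t₁ ht₁ h01
    by_cases hcase : ∀ x ∈ Ioc (-1:ℝ) 0, F c t₁ x < 1
    · left
      have hsub : Ioo (-1:ℝ) 1 ⊆ {x | F c t₁ x < 1} := by
        intro x hx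
        rcases le_or_gt x 0 with h | h
        · exact hcase x ⟨hx.1, h⟩
        · exact h01 x ⟨h, hx.2⟩
      have h1 := ENNReal.toReal_mono (hfin t₁ ht₁) (measure_mono hsub)
      rw [Real.volume_Ioo] at h1
      have e : (ENNReal.ofReal (1 - -1)).toReal = 2 := by
        rw [ENNReal.toReal_ofReal] <;> norm_num
      rw [e] at h1
      exact h1
    · right
      push Not at hcase
      obtain ⟨x₀, hx₀, hF⟩ := hcase
      obtain ⟨t₂, a₂, N₂, hv₂⟩ := pre_right hc ht₁ h01 hx₀.1 hx₀.2 hF
      obtain ⟨t₃, a₃, N₃, hleft, hv₃⟩ := pre_left hc N₂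
      have hv := hv₃.trans hv₂
      have hcont := F_cont (t := t₃) hc
      obtain ⟨i₀, hi₀⟩ := N₃.ex
      have hF1 : F c t₃ 1 < 1 := by
        have h := F_root (t := t₃) hc i₀
        rw [hi₀] at h
        rw [h]
        norm_num
      obtain ⟨a, ha1, ha2, ha3, ha4⟩ := exists_last hcont (by linarith [N₃.a_hi] : a₃ ≤ 1) N₃.Fa hF1
      obtain ⟨b, hb1, hb2, hb3, hb4⟩ := exists_first hcont (by norm_num : (1:ℝ) ≤ 2) hF1
        (one_le_F_two hc N₃.mem (by norm_num))
      have ha0 : a ≤ 0 := by
        by_contra hcon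
        push Not at hcon
        rcases eq_or_lt_of_le N₃.a_hi with haz | haz
        · have := N₃.zero (by rw [← haz]; exact N₃.Fa) a ⟨hcon, ha2⟩
          linarith
        · have : Nonempty ι := ⟨i₀⟩
          exact step0 hc N₃.mem (x := a₃) (y := a) ⟨N₃.a_lo, haz⟩ ⟨hcon, ha2⟩ N₃.Fa ha3.ge
      have hsplit : ∀ i, t₃ i < a ∨ t₃ i = 1 := fun i => (N₃.split i).imp_left (fun h => h.trans_le ha1)
      have hneg : ∀ x ∈ Ioo a b, x ∈ EE c t₃ := by
        intro x hx
        rw [EE_eq hc]
        rcases le_or_gt x 1 with h | h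
        · exact ha4 x hx.1 h
        · exact hb4 x h.le hx.2
      obtain ⟨m, hm⟩ : ∃ m, m = ∑ i, if t₃ i = 1 then c i else 0 := ⟨_, rfl⟩
      have hhalf := half_le hc S.sum N₃.mem (by linarith [N₃.a_lo]) ha0 hsplit N₃.ex ha3 ha4 hm
      have hvr := ENNReal.toReal_mono (hfin t₁ ht₁) hv
      rcases hleft with hl | ⟨e, he1, he2, he3, he4, he5⟩
      · refine ⟨t₃, a, b, m, -1, 0, ?_, hvr⟩
        have hne := ne_root_of_one_le hc hl
        exact
          { pos := hc
            sum := S.sum
            mem := N₃.mem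
            a_lo := by linarith [N₃.a_lo]
            a_hi := ha0
            b_lo := hb1
            half := hhalf
            mass := hm
            split := hsplit
            pa := pot_eq_zero_of_eq_one hc ha3
            pb := pot_eq_zero_of_eq_one hc hb3
            neg := hneg
            e_lo := le_rfl
            e_hi := by linarith [N₃.a_lo]
            α_lo := le_rfl
            α_hi := by norm_num
            e_not := fun i => (hne i).symm
            left := fun i hi => absurd (N₃.mem i).1 (not_le.2 hi)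
            pe := fun h => absurd h (lt_irrefl _)
            pe' := fun _ => ⟨pot_nonneg_of_one_le hc hl, rfl⟩ }
      · have hF1' : F c t₃ (-1) < 1 := he4 _ le_rfl he1
        obtain ⟨d, hd1, hd2, hd3, hd4⟩ := exists_last hcont (by norm_num : (-2:ℝ) ≤ -1)
          (one_le_F_two hc N₃.mem (by norm_num)) hF1'
        have hne := ne_root_of_one_le hc he3.ge
        have hαe : -1 - d ≤ 1 + e := by
          by_contra hcon
          push Not at hcon
          have h1 := hd4 (-2 - e) (by linarith) (by linarith)
          have h2 : F c t₃ e ≤ F c t₃ (-2 - e) := by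
            apply F_mono hc
            intro i
            have hi := (N₃.mem i).1
            rw [abs_sub_comm (-2 - e), abs_of_nonneg (a := t₃ i - (-2 - e)) (by linarith)]
            rcases lt_or_ge (t₃ i) e with h | h
            · rw [he5 i h, abs_of_nonneg (by linarith)]
              linarith
            · rw [abs_sub_comm, abs_of_nonneg (by linarith)]
              linarith
          linarith
        refine ⟨t₃, a, b, m, e, -1 - d, ?_, hvr⟩
        exact
          { pos := hc
            sum := S.sum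
            mem := N₃.mem
            a_lo := by linarith [N₃.a_lo]
            a_hi := ha0
            b_lo := hb1
            half := hhalf
            mass := hm
            split := hsplit
            pa := pot_eq_zero_of_eq_one hc ha3
            pb := pot_eq_zero_of_eq_one hc hb3
            neg := hneg
            e_lo := he1.le
            e_hi := he2.trans ha1
            α_lo := by linarith
            α_hi := hαe
            e_not := fun i => (hne i).symm
            left := he5
            pe := fun _ => by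
              have ed : -1 - (-1 - d) = d := by ring
              refine ⟨pot_eq_zero_of_eq_one hc he3, ?_, by linarith, ?_⟩
              · intro x hx
                rw [ed] at hx
                rw [EE_eq hc]
                rcases le_or_gt x (-1) with h | h
                · exact hd4 x hx.1 h
                · exact he4 x h.le hx.2
              · rw [ed]
                exact pot_eq_zero_of_eq_one hc hd3
            pe' := fun h => absurd h he1.ne' }
  have hEE : ∀ t' : ι → ℝ, EE c t' = {x | F c t' x < 1} := fun t' => EE_eq hc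
  simp only [hEE]
  -- Step 0 and reflection
  by_cases h01 : ∀ x ∈ Ioo (0:ℝ) 1, F c t x < 1
  · exact main t S.mem h01
  · push Not at h01
    obtain ⟨y, hy, hFy⟩ := h01
    have hne : Nonempty ι := by
      by_contra hemp
      rw [not_nonempty_iff] at hemp
      have := S.sum
      simp at this
    have h10 : ∀ x ∈ Ioo (0:ℝ) 1, F c (fun i => - t i) x < 1 := by
      intro x hx
      rw [F_neg]
      by_contra hcon
      push Not at hcon
      exact step0 hc S.mem (x := -x) (y := y) ⟨by linarith [hx.2], by linarith [hx.1]⟩ hy hcon hFy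
    have := main (fun i => - t i) (fun i => ⟨by linarith [(S.mem i).2], by linarith [(S.mem i).1]⟩) h10
    rw [volume_neg_sublevel] at this
    exact this

end EHP
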