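import Pool.Agent.Helper52.EHP.Basic

/-!
Basic facts on the weighted product `F c t x = ∏ |x - t i| ^ c i` and its logarithm (MP_28e671_an, module M1).
-/

open MeasureTheory Set

namespace EHP

variable {ι : Type*} [Fintype ι] {c t : ι → ℝ}

/-- weighted product of distances -/
noncomputable def F (c t : ι → ℝ) (x : ℝ) : ℝ := ∏ i, |x - t i| ^ (c i)

theorem pot_abs (x : ℝ) : pot c t x = ∑ i, c i * Real.log |x - t i| := by
  unfold pot
  simp only [Real.log_abs]

theorem F_cont (hc : ∀ i, 0 < c i) : Continuous (F c t) := by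
  unfold F
  apply continuous_finsetProd
  intro i _
  exact Continuous.rpow_const (by fun_prop) (fun x => Or.inr (hc i).le)

theorem F_nonneg (x : ℝ) : 0 ≤ F c t x :=
  Finset.prod_nonneg fun i _ => Real.rpow_nonneg (abs_nonneg _) _

theorem F_root (hc : ∀ i, 0 < c i) (i : ι) : F c t (t i) = 0 := by
  unfold F
  apply Finset.prod_eq_zero (Finset.mem_univ i)
  rw [sub_self, abs_zero, Real.zero_rpow (hc i).ne']

theorem F_eq_exp {x : ℝ} (h : ∀ i, x ≠ t i) : F c t x = Real.exp (pot c t x) := by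
  rw [pot_abs, Real.exp_sum]
  unfold F
  apply Finset.prod_congr rfl
  intro i _
  have : 0 < |x - t i| := abs_pos.2 (sub_ne_zero.2 (h i))
  rw [Real.rpow_def_of_pos this, mul_comm]

theorem F_lt_iff {x : ℝ} (h : ∀ i, x ≠ t i) : F c t x < 1 ↔ pot c t x < 0 := by
  rw [F_eq_exp h, Real.exp_lt_one_iff]

theorem F_le_iff {x : ℝ} (h : ∀ i, x ≠ t i) : F c t x ≤ 1 ↔ pot c t x ≤ 0 := by
  rw [F_eq_exp h, Real.exp_le_one_iff]

theorem F_ge_iff {x : ℝ} (h : ∀ i, x ≠ t i) : 1 ≤ F c t x ↔ 0 ≤ pot c t x := by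
  rw [F_eq_exp h, Real.one_le_exp_iff]

theorem ne_root_of_one_le (hc : ∀ i, 0 < c i) {x : ℝ} (h : 1 ≤ F c t x) : ∀ i, x ≠ t i := by
  intro i hi
  rw [hi, F_root hc i] at h
  linarith

theorem pot_nonneg_of_one_le (hc : ∀ i, 0 < c i) {x : ℝ} (h : 1 ≤ F c t x) : 0 ≤ pot c t x :=
  (F_ge_iff (ne_root_of_one_le hc h)).1 h

theorem pot_eq_zero_of_eq_one (hc : ∀ i, 0 < c i) {x : ℝ} (h : F c t x = 1) : pot c t x = 0 := by
  have h1 := ne_root_of_one_le hc h.ge
  exact le_antisymm ((F_le_iff h1).1 h.le) ((F_ge_iff h1).1 h.ge)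

/-- comparison: if all distances grow, so does `F` -/
theorem F_mono {t' : ι → ℝ} (hc : ∀ i, 0 < c i) {x y : ℝ} (h : ∀ i, |x - t i| ≤ |y - t' i|) :
    F c t x ≤ F c t' y := by
  unfold F
  apply Finset.prod_le_prod
  · intro i _
    exact Real.rpow_nonneg (abs_nonneg _) _
  · intro i _
    exact Real.rpow_le_rpow (abs_nonneg _) (h i) (hc i).le

theorem F_neg (x : ℝ) : F c (fun i => - t i) x = F c t (-x) := by
  unfold F
  apply Finset.prod_congr rfl
  intro i _
  rw [← abs_neg]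
  congr 2
  ring

theorem volume_neg_sublevel : volume {x | F c (fun i => - t i) x < 1} = volume {x | F c t x < 1} := by
  have : {x | F c (fun i => - t i) x < 1} = -{x | F c t x < 1} := by
    ext x
    simp only [mem_ofPred_eq, Set.mem_neg, F_neg]
  rw [this, Measure.measure_neg]

/-- for roots in `[-1,1]`, `F ≥ 1` at distance at least 2 -/
theorem one_le_F_two (hc : ∀ i, 0 < c i) (ht : ∀ i, t i ∈ Icc (-1 : ℝ) 1) {x : ℝ} (hx : 2 ≤ |x|) :
    1 ≤ F c t x := by
  unfold F
  have : (1:ℝ) = ∏ _i : ι, (1:ℝ) := by simp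
  rw [this]
  apply Finset.prod_le_prod
  · intro i _; norm_num
  · intro i _
    apply Real.one_le_rpow _ (hc i).le
    have h1 : |t i| ≤ 1 := abs_le.2 (ht i)
    have h2 := abs_sub_abs_le_abs_sub x (t i)
    linarith

theorem F_zero_le (hc : ∀ i, 0 < c i) (ht : ∀ i, t i ∈ Icc (-1 : ℝ) 1) : F c t 0 ≤ 1 := by
  unfold F
  apply Finset.prod_le_one
  · intro i _
    exact Real.rpow_nonneg (abs_nonneg _) _
  · intro i _
    apply Real.rpow_le_one (abs_nonneg _) _ (hc i).le
    rw [zero_sub, abs_neg]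
    exact abs_le.2 (ht i)

/-- if `F 0 = 1` then all roots are `±1` -/
theorem roots_of_F_zero [DecidableEq ι] (hc : ∀ i, 0 < c i) (ht : ∀ i, t i ∈ Icc (-1 : ℝ) 1) (h : 1 ≤ F c t 0) (i : ι) :
    t i = 1 ∨ t i = -1 := by
  have h0 := ne_root_of_one_le hc h
  have h1 := pot_nonneg_of_one_le hc h
  have h2 : ∀ j, c j * Real.log |0 - t j| ≤ 0 := by
    intro j
    apply mul_nonpos_of_nonneg_of_nonpos (hc j).le
    apply Real.log_nonpos (abs_nonneg _)
    rw [zero_sub, abs_neg]
    exact abs_le.2 (ht j)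
  have h3 : c i * Real.log |0 - t i| = 0 := by
    have h4 : pot c t 0 ≤ c i * Real.log |0 - t i| := by
      rw [pot_abs, ← Finset.add_sum_erase _ _ (Finset.mem_univ i)]
      have : ∑ x ∈ Finset.univ.erase i, c x * Real.log |0 - t x| ≤ 0 :=
        Finset.sum_nonpos fun j _ => h2 j
      linarith
    exact le_antisymm (h2 i) (h1.trans h4)
  have h5 : Real.log |0 - t i| = 0 := by
    rcases mul_eq_zero.1 h3 with h | h
    · exact absurd h (hc i).ne'
    · exact h
  have h6 : |t i| = 1 := by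
    rw [zero_sub, abs_neg] at h5
    have : 0 < |t i| := abs_pos.2 (fun h => h0 i h.symm)
    rcases Real.log_eq_zero.1 h5 with h | h | h <;> linarith
  exact eq_or_eq_neg_of_abs_eq h6

theorem EE_eq (hc : ∀ i, 0 < c i) : EE c t = {x | F c t x < 1} := by
  ext x
  simp only [EE, mem_ofPred_eq]
  by_cases h : ∃ i, x = t i
  · obtain ⟨i, hi⟩ := h
    simp only [hi, F_root hc i, zero_lt_one, iff_true]
    exact Or.inl ⟨i, rfl⟩
  · push Not at h
    rw [F_lt_iff h]
    constructor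
    · rintro (⟨i, hi⟩ | h1)
      · exact absurd hi (h i)
      · exact h1
    · exact Or.inr

/-! ### Step 0 -/

theorem log_concave_strict {x y w : ℝ} (hx : 0 < x) (hy : 0 < y) (hxy : x ≠ y) (hw0 : 0 < w)
    (hw1 : w < 1) : w * Real.log x + (1 - w) * Real.log y < Real.log (w * x + (1 - w) * y) := by
  have := strictConcaveOn_log_Ioi.2 (mem_Ioi.2 hx) (mem_Ioi.2 hy) hxy hw0 (by linarith : 0 < 1 - w)
    (by ring)
  simpa using this

theorem log_concave {x y w : ℝ} (hx : 0 < x) (hy : 0 < y) (hw0 : 0 ≤ w)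
    (hw1 : w ≤ 1) : w * Real.log x + (1 - w) * Real.log y ≤ Real.log (w * x + (1 - w) * y) := by
  have := strictConcaveOn_log_Ioi.concaveOn.2 (mem_Ioi.2 hx) (mem_Ioi.2 hy) hw0
    (by linarith : 0 ≤ 1 - w) (by ring)
  simpa using this

/-- weighted pair inequality -/
theorem pair_neg {ξ y t : ℝ} (hξ0 : 0 < ξ) (hξ1 : ξ < 1) (hy0 : 0 < y) (hy1 : y < 1)
    (ht : t ∈ Icc (-1 : ℝ) 1) (h1 : t ≠ -ξ) (h2 : t ≠ y) :
    y / (y + ξ) * Real.log |-ξ - t| + (1 - y / (y + ξ)) * Real.log |y - t| < 0 := by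
  have hs : 0 < y + ξ := by linarith
  have hw0 : 0 < y / (y + ξ) := by positivity
  have hw1 : y / (y + ξ) < 1 := by rw [div_lt_one hs]; linarith
  set w := y / (y + ξ) with hw
  have e1 : w * ξ = (1 - w) * y := by rw [hw]; field_simp; ring
  rcases lt_or_ge y t with h | h
  · have hA : |-ξ - t| = t + ξ := by rw [abs_sub_comm, abs_of_pos] <;> linarith
    have hB : |y - t| = t - y := by rw [abs_sub_comm, abs_of_pos]; linarith
    rw [hA, hB]
    have := log_concave_strict (by linarith : 0 < t + ξ) (by linarith : 0 < t - y)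
      (by intro h'; linarith) hw0 hw1
    have e2 : w * (t + ξ) + (1 - w) * (t - y) = t := by linarith
    rw [e2] at this
    have h3 : Real.log t ≤ 0 := Real.log_nonpos (by linarith) ht.2
    linarith
  have h' : t < y := lt_of_le_of_ne h h2
  rcases lt_or_ge t (-ξ) with h3 | h3
  · have hA : |-ξ - t| = -ξ - t := by rw [abs_of_pos]; linarith
    have hB : |y - t| = y - t := by rw [abs_of_pos]; linarith
    rw [hA, hB]
    have := log_concave_strict (by linarith : 0 < -ξ - t) (by linarith : 0 < y - t)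
      (by intro h'; linarith) hw0 hw1
    have e2 : w * (-ξ - t) + (1 - w) * (y - t) = -t := by linarith
    rw [e2] at this
    have h3 : Real.log (-t) ≤ 0 := Real.log_nonpos (by linarith) (by linarith [ht.1])
    linarith
  · have h3' : -ξ < t := lt_of_le_of_ne h3 (Ne.symm h1)
    have hA : |-ξ - t| = t + ξ := by rw [abs_sub_comm, abs_of_pos] <;> linarith
    have hB : |y - t| = y - t := by rw [abs_of_pos]; linarith
    rw [hA, hB]
    have h4 : 0 < (t + ξ) / y := div_pos (by linarith) hy0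
    have h5 : 0 < (y - t) / ξ := div_pos (by linarith) hξ0
    have := log_concave h4 h5 hw0.le hw1.le
    have e2 : w * ((t + ξ) / y) + (1 - w) * ((y - t) / ξ) = 1 := by
      rw [hw]; field_simp; ring
    rw [e2, Real.log_one, Real.log_div (by linarith) hy0.ne', Real.log_div (by linarith) hξ0.ne'] at this
    have h6 : Real.log y < 0 := Real.log_neg hy0 hy1
    have h7 : Real.log ξ < 0 := Real.log_neg hξ0 hξ1
    nlinarith

/-- **Step 0**: the set `F ≥ 1` cannot meet both `(-1,0)` and `(0,1)`. -/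
theorem step0 [Nonempty ι] (hc : ∀ i, 0 < c i) (ht : ∀ i, t i ∈ Icc (-1 : ℝ) 1) {x y : ℝ}
    (hx : x ∈ Ioo (-1 : ℝ) 0) (hy : y ∈ Ioo (0 : ℝ) 1) (h1 : 1 ≤ F c t x) (h2 : 1 ≤ F c t y) : False := by
  have hx' := pot_nonneg_of_one_le hc h1
  have hy' := pot_nonneg_of_one_le hc h2
  have hnx := ne_root_of_one_le hc h1
  have hny := ne_root_of_one_le hc h2
  obtain ⟨ξ, hξ⟩ : ∃ ξ, ξ = -x := ⟨_, rfl⟩
  have ex : x = -ξ := by rw [hξ]; ring
  subst ex
  have hs : 0 < y + ξ := by linarith [hx.2, hy.1]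
  have hw0 : 0 < y / (y + ξ) := div_pos hy.1 hs
  have hw1 : y / (y + ξ) < 1 := by rw [div_lt_one hs]; linarith [hx.2]
  have key : y / (y + ξ) * pot c t (-ξ) + (1 - y / (y + ξ)) * pot c t y < 0 := by
    rw [pot_abs, pot_abs, Finset.mul_sum, Finset.mul_sum, ← Finset.sum_add_distrib]
    apply Finset.sum_neg
    · intro i _
      have := pair_neg (by linarith [hx.2] : 0 < ξ) (by linarith [hx.1] : ξ < 1) hy.1 hy.2 (ht i)
        (Ne.symm (hnx i)) (Ne.symm (hny i))
      have := mul_neg_of_pos_of_neg (hc i) this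
      linarith
    · exact Finset.univ_nonempty
  have := mul_nonneg hw0.le hx'
  have := mul_nonneg (sub_nonneg.2 hw1.le) hy'
  linarith

end EHP
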