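import Pool.Agent.Helper6.E38.Basic

/-!
Merging the roots of the last component (MP_28e671_an, module M1, Step 1).
-/

open MeasureTheory Set

namespace EHP

/-- Jensen for the logarithm -/
theorem jensen_log {κ : Type*} (s : Finset κ) (c y : κ → ℝ) (hc : ∀ i ∈ s, 0 < c i)
    (hy : ∀ i ∈ s, 0 < y i) (hs : s.Nonempty) :
    ∑ i ∈ s, c i * Real.log (y i) ≤
      (∑ i ∈ s, c i) * Real.log ((∑ i ∈ s, c i * y i) / ∑ i ∈ s, c i) := by
  have hm : 0 < ∑ i ∈ s, c i := Finset.sum_pos hc hs
  have hn : 0 < ∑ i ∈ s, c i * y i := Finset.sum_pos (fun i hi => mul_pos (hc i hi) (hy i hi)) hs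
  set M := ∑ i ∈ s, c i with hM
  set Y := (∑ i ∈ s, c i * y i) / M with hY
  have hYpos : 0 < Y := div_pos hn hm
  have h1 : ∀ i ∈ s, c i * Real.log (y i) ≤ c i * Real.log Y + (c i * y i) / Y - c i := by
    intro i hi
    have h2 := Real.log_le_sub_one_of_pos (div_pos (hy i hi) hYpos)
    rw [Real.log_div (hy i hi).ne' hYpos.ne'] at h2
    have h3 := mul_le_mul_of_nonneg_left h2 (hc i hi).le
    have e : c i * y i / Y = c i * (y i / Y) := by ring
    rw [e]
    linarith
  have h2 := Finset.sum_le_sum h1
  rw [Finset.sum_sub_distrib, Finset.sum_add_distrib, ← Finset.sum_mul, ← Finset.sum_div, ← hM] at h2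
  have h3 : (∑ i ∈ s, c i * y i) / Y = M := by
    rw [hY]
    field_simp
  rw [h3] at h2
  linarith

variable {ι : Type*} [Fintype ι] {c t : ι → ℝ}

/-- right merging -/
noncomputable def mrg (t : ι → ℝ) (a : ℝ) : ι → ℝ := fun i => if a < t i then 1 else t i

theorem merge (hc : ∀ i, 0 < c i) (ht : ∀ i, t i ∈ Icc (-1 : ℝ) 1) {a b : ℝ} (ha : a < 1)
    (hb : 1 ≤ b) (Fa : F c t a = 1) (Fb : F c t b = 1) (neg : ∀ x ∈ Ioo a b, F c t x < 1) :
    (∃ i, a < t i) ∧ (∀ x ≤ a, F c t x ≤ F c (mrg t a) x) ∧
      volume {x | F c (mrg t a) x < 1} ≤ volume {x | F c t x < 1} := by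
  classical
  have hna := ne_root_of_one_le hc Fa.ge
  have hnb := ne_root_of_one_le hc Fb.ge
  have hPa := pot_eq_zero_of_eq_one hc Fa
  have hPb := pot_eq_zero_of_eq_one hc Fb
  have hbt : ∀ i, 0 < b - t i := by
    intro i
    have h1 := (ht i).2
    have h2 : t i ≠ b := (hnb i).symm
    rcases lt_or_eq_of_le (h1.trans hb) with h | h
    · linarith
    · exact absurd h h2
  have hex : ∃ i, a < t i := by
    by_contra hcon
    push Not at hcon
    have h1 : F c t a ≤ F c t ((a + 1) / 2) := by
      apply F_mono hc
      intro i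
      have := hcon i
      rw [abs_of_nonneg (by linarith), abs_of_nonneg (by linarith)]
      linarith
    have h2 := neg ((a + 1) / 2) ⟨by linarith, by linarith⟩
    linarith
  have hmono : ∀ x ≤ a, F c t x ≤ F c (mrg t a) x := by
    intro x hx
    apply F_mono hc
    intro i
    unfold mrg
    split_ifs with h
    · have := (ht i).2
      rw [abs_sub_comm, abs_of_nonneg (by linarith), abs_sub_comm, abs_of_nonneg (by linarith)]
      linarith
    · exact le_rfl
  refine ⟨hex, hmono, ?_⟩
  -- the set of moved roots
  set A := Finset.univ.filter (fun i => a < t i) with hA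
  have hAne : A.Nonempty := by
    obtain ⟨i, hi⟩ := hex
    exact ⟨i, by simp [hA, hi]⟩
  set m := ∑ i ∈ A, c i with hm
  have hmpos : 0 < m := Finset.sum_pos (fun i _ => hc i) hAne
  set s := (∑ i ∈ A, c i * (1 - t i)) / m with hs
  have hs0 : 0 ≤ s := by
    apply div_nonneg _ hmpos.le
    apply Finset.sum_nonneg
    intro i _
    exact mul_nonneg (hc i).le (by linarith [(ht i).2])
  have hsum : ∀ z : ℝ, (∑ i ∈ A, c i * (z - t i)) / m = z + s - 1 := by
    intro z
    have e : ∑ i ∈ A, c i * (z - t i) = m * (z - 1) + ∑ i ∈ A, c i * (1 - t i) := by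
      rw [hm, Finset.sum_mul, ← Finset.sum_add_distrib]
      exact Finset.sum_congr rfl fun i _ => by ring
    rw [e, add_div, ← hs]
    field_simp
    ring
  have hsum' : (∑ i ∈ A, c i * (t i - a)) / m = 1 - a - s := by
    have e : ∑ i ∈ A, c i * (t i - a) = -∑ i ∈ A, c i * (a - t i) := by
      rw [← Finset.sum_neg_distrib]
      exact Finset.sum_congr rfl fun i _ => by ring
    rw [e, neg_div, hsum]
    ring
  have hs1 : 0 < 1 - a - s := by
    rw [← hsum']
    apply div_pos _ hmpos
    apply Finset.sum_pos _ hAne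
    intro i hi
    have : a < t i := (Finset.mem_filter.1 hi).2
    exact mul_pos (hc i) (by linarith)
  have hs2 : 0 < b + s - 1 := by
    rw [← hsum b]
    apply div_pos _ hmpos
    apply Finset.sum_pos _ hAne
    intro i _
    exact mul_pos (hc i) (hbt i)
  have hbs : 1 < b + s := by linarith
  -- splitting of the potential
  have hsplit : ∀ (t₁ : ι → ℝ) (x : ℝ), pot c t₁ x =
      ∑ i ∈ A, c i * Real.log (x - t₁ i) + ∑ i ∈ Aᶜ, c i * Real.log (x - t₁ i) := by
    intro t₁ x
    unfold pot
    rw [Finset.sum_add_sum_compl]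
  have hA1 : ∀ i ∈ A, mrg t a i = 1 := by
    intro i hi
    have : a < t i := (Finset.mem_filter.1 hi).2
    simp [mrg, this]
  have hA2 : ∀ i ∈ Aᶜ, mrg t a i = t i ∧ t i < a := by
    intro i hi
    rw [Finset.mem_compl, hA, Finset.mem_filter, not_and] at hi
    have h1 : ¬ a < t i := hi (Finset.mem_univ i)
    exact ⟨by simp [mrg, h1], lt_of_le_of_ne (not_lt.1 h1) (hna i).symm⟩
  have hroot : ∀ i, mrg t a i = 1 ∨ mrg t a i < a := by
    intro i
    by_cases h : i ∈ A
    · exact Or.inl (hA1 i h)
    · have := hA2 i (Finset.mem_compl.2 h)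
      right; rw [this.1]; exact this.2
  -- value at b + s
  have h1 : 1 ≤ F c (mrg t a) (b + s) := by
    have hne : ∀ i, b + s ≠ mrg t a i := by
      intro i
      rcases hroot i with h | h <;> linarith
    rw [F_ge_iff hne, hsplit]
    have e1 : ∑ i ∈ A, c i * Real.log (b - t i) ≤ ∑ i ∈ A, c i * Real.log (b + s - mrg t a i) := by
      have := jensen_log A c (fun i => b - t i) (fun i _ => hc i) (fun i _ => hbt i) hAne
      rw [← hm, hsum b] at this
      refine this.trans (le_of_eq ?_)
      rw [hm, Finset.sum_mul]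
      exact Finset.sum_congr rfl fun i hi => by rw [hA1 i hi]
    have e2 : ∑ i ∈ Aᶜ, c i * Real.log (b - t i) ≤ ∑ i ∈ Aᶜ, c i * Real.log (b + s - mrg t a i) := by
      apply Finset.sum_le_sum
      intro i hi
      rw [(hA2 i hi).1]
      apply mul_le_mul_of_nonneg_left _ (hc i).le
      exact Real.log_le_log (hbt i) (by linarith)
    have e3 := hsplit t b
    rw [hPb] at e3
    linarith
  have h2 : ∀ x, b + s ≤ x → 1 ≤ F c (mrg t a) x := by
    intro x hx
    refine h1.trans (F_mono hc fun i => ?_)
    rcases hroot i with h | h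
    · rw [h, abs_of_pos (by linarith), abs_of_pos (by linarith)]; linarith
    · rw [abs_of_pos (by linarith), abs_of_pos (by linarith)]; linarith
  -- values on [a, a + s]
  have h3 : 1 ≤ F c (mrg t a) a := Fa.ge.trans (hmono a le_rfl)
  have has : a + s < 1 := by linarith
  have h4 : 0 ≤ pot c (mrg t a) (a + s) := by
    rw [hsplit]
    have e1 : ∑ i ∈ A, c i * Real.log (a - t i) ≤ ∑ i ∈ A, c i * Real.log (a + s - mrg t a i) := by
      have := jensen_log A c (fun i => t i - a) (fun i _ => hc i)
        (fun i hi => by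
          have : a < t i := (Finset.mem_filter.1 hi).2
          linarith) hAne
      rw [← hm, hsum'] at this
      have e : ∑ i ∈ A, c i * Real.log (a - t i) = ∑ i ∈ A, c i * Real.log (t i - a) :=
        Finset.sum_congr rfl fun i _ => by rw [← Real.log_neg_eq_log, neg_sub]
      rw [e]
      refine this.trans (le_of_eq ?_)
      rw [hm, Finset.sum_mul]
      refine Finset.sum_congr rfl fun i hi => ?_
      rw [hA1 i hi, ← Real.log_neg_eq_log (a + s - 1)]
      congr 2
      ring
    have e2 : ∑ i ∈ Aᶜ, c i * Real.log (a - t i) ≤ ∑ i ∈ Aᶜ, c i * Real.log (a + s - mrg t a i) := by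
      apply Finset.sum_le_sum
      intro i hi
      obtain ⟨g1, g2⟩ := hA2 i hi
      rw [g1]
      apply mul_le_mul_of_nonneg_left _ (hc i).le
      exact Real.log_le_log (by linarith) (by linarith)
    have e3 := hsplit t a
    rw [hPa] at e3
    linarith
  have h5 : 0 ≤ pot c (mrg t a) a := pot_nonneg_of_one_le hc h3
  have h6 : ∀ x ∈ Icc a (a + s), 1 ≤ F c (mrg t a) x := by
    intro x hx
    rcases eq_or_lt_of_le hs0 with h0 | h0
    · have : x = a := le_antisymm (by linarith [hx.2]) hx.1
      rw [this]; exact h3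
    obtain ⟨l, hl⟩ : ∃ l, l = (x - a) / s := ⟨_, rfl⟩
    have hl0 : 0 ≤ l := by rw [hl]; exact div_nonneg (by linarith [hx.1]) h0.le
    have hl1 : l ≤ 1 := by rw [hl, div_le_one h0]; linarith [hx.2]
    have hls : l * s = x - a := by rw [hl]; field_simp
    have hne : ∀ i, x ≠ mrg t a i := by
      intro i
      rcases hroot i with h | h
      · have := hx.2; intro h'; linarith
      · have := hx.1; intro h'; linarith
    rw [F_ge_iff hne]
    have key : (1 - l) * pot c (mrg t a) a + l * pot c (mrg t a) (a + s) ≤ pot c (mrg t a) x := by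
      unfold pot
      rw [Finset.mul_sum, Finset.mul_sum, ← Finset.sum_add_distrib]
      apply Finset.sum_le_sum
      intro i _
      have hx1 := hx.1
      have hx2 := hx.2
      have hsub : (1 - l) * Real.log (a - mrg t a i) + l * Real.log (a + s - mrg t a i)
          ≤ Real.log (x - mrg t a i) := by
        rcases hroot i with h | h
        · rw [h, ← Real.log_neg_eq_log (a - 1), ← Real.log_neg_eq_log (a + s - 1),
            ← Real.log_neg_eq_log (x - 1)]
          have := log_concave (x := -(a - 1)) (y := -(a + s - 1)) (w := 1 - l) (by linarith)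
            (by linarith) (by linarith) (by linarith)
          have e1 : 1 - (1 - l) = l := by ring
          rw [e1] at this
          refine this.trans (le_of_eq ?_)
          congr 1
          linear_combination (-1 : ℝ) * hls
        · have := log_concave (x := a - mrg t a i) (y := a + s - mrg t a i) (w := 1 - l) (by linarith)
            (by linarith) (by linarith) (by linarith)
          have e1 : 1 - (1 - l) = l := by ring
          rw [e1] at this
          refine this.trans (le_of_eq ?_)
          congr 1
          linear_combination hls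
      have := mul_le_mul_of_nonneg_left hsub (hc i).le
      linarith
    have g1 := mul_nonneg (by linarith : 0 ≤ 1 - l) h5
    have g2 := mul_nonneg hl0 h4
    linarith
  -- the new sublevel set
  have hsub : {x | F c (mrg t a) x < 1} ⊆ ({x | F c t x < 1} ∩ Iic a) ∪ Ioo (a + s) (b + s) := by
    intro x hx
    rw [mem_ofPred_eq] at hx
    rcases le_or_gt x a with h | h
    · left
      exact ⟨(hmono x h).trans_lt hx, h⟩
    · right
      constructor
      · by_contra hcon
        push Not at hcon
        have := h6 x ⟨h.le, hcon⟩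
        linarith
      · by_contra hcon
        push Not at hcon
        have := h2 x hcon
        linarith
  calc volume {x | F c (mrg t a) x < 1}
      ≤ volume (({x | F c t x < 1} ∩ Iic a) ∪ Ioo (a + s) (b + s)) := measure_mono hsub
    _ ≤ volume ({x | F c t x < 1} ∩ Iic a) + volume (Ioo (a + s) (b + s)) := measure_union_le _ _
    _ = volume ({x | F c t x < 1} ∩ Iic a) + volume (Ioo a b) := by
        rw [Real.volume_Ioo, Real.volume_Ioo]
        congr 2
        ring
    _ = volume (({x | F c t x < 1} ∩ Iic a) ∪ Ioo a b) := by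
        rw [measure_union _ measurableSet_Ioo]
        rw [Set.disjoint_left]
        intro x hx hx'
        exact absurd hx.2 (not_le.2 hx'.1)
    _ ≤ volume {x | F c t x < 1} := by
        apply measure_mono
        intro x hx
        rcases hx with hx | hx
        · exact hx.1
        · exact neg x hx

end EHP
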