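import Mathlib

/-!
Penalty lemma (L1) for MP_28e671_an: a weighted sum of logarithms which vanishes at the two ends of an
interval has there an integral at least minus (mass of the poles in the interval) times its length.
-/

open MeasureTheory Set

namespace E38

/-- `2 (b - a) ≤ (a + b) (log b - log a)` -/
theorem two_mul_sub_le_log {a b : ℝ} (ha : 0 < a) (hab : a ≤ b) :
    2 * (b - a) ≤ (a + b) * (Real.log b - Real.log a) := by
  have hb : 0 < b := ha.trans_le hab
  have hs : 0 < a + b := by linarith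
  set y := (b - a) / (a + b) with hy
  have hy0 : 0 ≤ y := div_nonneg (by linarith) hs.le
  have hy1 : y < 1 := by rw [hy, div_lt_one hs]; linarith
  have habs : |y| < 1 := by rw [abs_of_nonneg hy0]; exact hy1
  have h := Real.hasSum_log_sub_log_of_abs_lt_one habs
  have h1 := le_hasSum h 0 (fun k _ => by positivity)
  have e1 : 1 + y = 2 * b / (a + b) := by rw [hy]; field_simp; ring
  have e2 : 1 - y = 2 * a / (a + b) := by rw [hy]; field_simp; ring
  rw [e1, e2, Real.log_div (by positivity) hs.ne', Real.log_div (by positivity) hs.ne',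
    Real.log_mul (by norm_num) hb.ne', Real.log_mul (by norm_num) ha.ne'] at h1
  have h2 : 2 * y ≤ Real.log b - Real.log a := by
    have : (2 : ℝ) * (1 / (2 * (0 : ℕ) + 1)) * y ^ (2 * 0 + 1) = 2 * y := by norm_num
    rw [this] at h1
    linarith
  have h3 : (a + b) * y = b - a := by rw [hy]; field_simp
  calc 2 * (b - a) = (a + b) * (2 * y) := by rw [← h3]; ring
    _ ≤ _ := by gcongr

theorem integral_log_sub (α β v : ℝ) :
    ∫ u in α..β, Real.log |u - v| =
      (β - v) * Real.log |β - v| - (α - v) * Real.log |α - v| - (β - α) := by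
  simp only [Real.log_abs]
  rw [intervalIntegral.integral_comp_sub_right (fun x => Real.log x) v, integral_log]
  ring

theorem intervalIntegrable_log_sub (α β v : ℝ) :
    IntervalIntegrable (fun u => Real.log |u - v|) volume α β := by
  simp only [Real.log_abs]
  have := (intervalIntegral.intervalIntegrable_log' (a := α - v) (b := β - v)).comp_sub_right v
  simpa using this

/-- single pole -/
theorem chord_sub_integral {α β v : ℝ} (h : α < β) (hα : v ≠ α) (hβ : v ≠ β) :
    (β - α) * ((Real.log |α - v| + Real.log |β - v|) / 2) - ∫ u in α..β, Real.log |u - v| ≤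
      if α < v ∧ v < β then β - α else 0 := by
  rw [integral_log_sub]
  have e : (β - α) * ((Real.log |α - v| + Real.log |β - v|) / 2) -
      ((β - v) * Real.log |β - v| - (α - v) * Real.log |α - v| - (β - α))
      = (β - α) - ((α + β) / 2 - v) * (Real.log |β - v| - Real.log |α - v|) := by ring
  rw [e]
  split_ifs with hv
  · obtain ⟨h1, h2⟩ := hv
    have hA : |α - v| = v - α := by rw [abs_sub_comm, abs_of_pos]; linarith
    have hB : |β - v| = β - v := by rw [abs_of_pos]; linarith
    rw [hA, hB]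
    have : 0 ≤ ((α + β) / 2 - v) * (Real.log (β - v) - Real.log (v - α)) := by
      rcases le_total v ((α + β) / 2) with h3 | h3
      · apply mul_nonneg (by linarith)
        have := Real.log_le_log (by linarith : 0 < v - α) (by linarith : v - α ≤ β - v)
        linarith
      · apply mul_nonneg_of_nonpos_of_nonpos (by linarith)
        have := Real.log_le_log (by linarith : 0 < β - v) (by linarith : β - v ≤ v - α)
        linarith
    linarith
  · rcases lt_or_ge v α with h1 | h1
    · have hA : |α - v| = α - v := by rw [abs_of_pos]; linarith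
      have hB : |β - v| = β - v := by rw [abs_of_pos]; linarith
      rw [hA, hB]
      have := two_mul_sub_le_log (by linarith : 0 < α - v) (by linarith : α - v ≤ β - v)
      linarith
    · have h1' : α < v := lt_of_le_of_ne h1 (Ne.symm hα)
      have h2 : β < v := by
        by_contra hc
        exact hv ⟨h1', lt_of_le_of_ne (not_lt.1 hc) hβ⟩
      have hA : |α - v| = v - α := by rw [abs_sub_comm, abs_of_pos]; linarith
      have hB : |β - v| = v - β := by rw [abs_sub_comm, abs_of_pos]; linarith
      rw [hA, hB]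
      have := two_mul_sub_le_log (by linarith : 0 < v - β) (by linarith : v - β ≤ v - α)
      linarith

/-- **Penalty lemma (L1).** -/
theorem penalty {ι : Type*} (s : Finset ι) (w v : ι → ℝ) (hw : ∀ i ∈ s, 0 ≤ w i) {α β : ℝ}
    (h : α < β) (hα : ∀ i ∈ s, v i ≠ α) (hβ : ∀ i ∈ s, v i ≠ β)
    (h1 : ∑ i ∈ s, w i * Real.log |α - v i| = 0) (h2 : ∑ i ∈ s, w i * Real.log |β - v i| = 0) :
    -(∫ u in α..β, ∑ i ∈ s, w i * Real.log |u - v i|) ≤
      (∑ i ∈ s with α < v i ∧ v i < β, w i) * (β - α) := by
  rw [intervalIntegral.integral_finsetSum (fun i _ => (intervalIntegrable_log_sub α β (v i)).const_mul _)]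
  have e1 : -∑ i ∈ s, ∫ u in α..β, w i * Real.log |u - v i| =
      ∑ i ∈ s, w i * ((β - α) * ((Real.log |α - v i| + Real.log |β - v i|) / 2)
        - ∫ u in α..β, Real.log |u - v i|) := by
    have : ∑ i ∈ s, w i * ((β - α) * ((Real.log |α - v i| + Real.log |β - v i|) / 2)) = 0 := by
      calc _ = (β - α) / 2 * (∑ i ∈ s, w i * Real.log |α - v i| + ∑ i ∈ s, w i * Real.log |β - v i|) := by
            rw [← Finset.sum_add_distrib, Finset.mul_sum]
            exact Finset.sum_congr rfl fun i _ => by ring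
        _ = 0 := by rw [h1, h2]; ring
    simp only [mul_sub, Finset.sum_sub_distrib, this, intervalIntegral.integral_const_mul]
    ring
  rw [e1, Finset.sum_filter, Finset.sum_mul]
  apply Finset.sum_le_sum
  intro i hi
  have := mul_le_mul_of_nonneg_left (chord_sub_integral h (hα i hi) (hβ i hi)) (hw i hi)
  refine this.trans (le_of_eq ?_)
  split_ifs <;> ring

/-- **Pointwise form of (L2).**  All poles `s i` (in the variable `u ^ 2`) are `0` or beyond `u₁ ^ 2`. -/
theorem penalty0_pointwise {ι : Type*} (S : Finset ι) (c s : ι → ℝ) (hc : ∀ i ∈ S, 0 ≤ c i)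
    {u₁ u : ℝ} (hu : 0 < u) (hu1 : u < u₁) (hs : ∀ i ∈ S, s i = 0 ∨ u₁ ^ 2 < s i)
    (h1 : ∑ i ∈ S, c i * Real.log |u₁ ^ 2 - s i| = 0) :
    -(∑ i ∈ S, c i * Real.log |u ^ 2 - s i|) ≤
      2 * (∑ i ∈ S with s i = 0, c i) * (Real.log u₁ - Real.log u) := by
  have hu1' : 0 < u₁ := hu.trans hu1
  have e : -(∑ i ∈ S, c i * Real.log |u ^ 2 - s i|) =
      ∑ i ∈ S, c i * (Real.log |u₁ ^ 2 - s i| - Real.log |u ^ 2 - s i|) := by
    simp only [mul_sub, Finset.sum_sub_distrib, h1]
    ring
  rw [e, Finset.sum_filter, mul_assoc, Finset.sum_mul, Finset.mul_sum]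
  apply Finset.sum_le_sum
  intro i hi
  rcases hs i hi with h | h
  · rw [if_pos h, h, sub_zero, sub_zero, abs_of_nonneg (by positivity), abs_of_nonneg (by positivity),
      Real.log_pow, Real.log_pow]
    apply le_of_eq
    push_cast
    ring
  · have hne : s i ≠ 0 := ((by positivity : (0:ℝ) < u₁ ^ 2).trans h).ne'
    rw [if_neg hne]
    have h2 : u ^ 2 < u₁ ^ 2 := by nlinarith
    have h3 : |u₁ ^ 2 - s i| ≤ |u ^ 2 - s i| := by
      rw [abs_sub_comm, abs_of_pos (by linarith), abs_sub_comm, abs_of_pos (by linarith)]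
      linarith
    have h4 : 0 < |u₁ ^ 2 - s i| := abs_pos.2 (by linarith)
    have := Real.log_le_log h4 h3
    have := mul_nonneg (hc i hi) (sub_nonneg.2 this)
    linarith

theorem integral_log_ratio {u₁ : ℝ} :
    ∫ u in (0:ℝ)..u₁, (Real.log u₁ - Real.log u) = u₁ := by
  rw [intervalIntegral.integral_sub (by simp) intervalIntegral.intervalIntegrable_log',
    intervalIntegral.integral_const, integral_log]
  simp

/-- `∫_0^{u₁} u² log (u₁ / u) du = u₁³ / 9` -/
theorem integral_sq_log_ratio {u₁ : ℝ} (h : 0 < u₁) :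
    ∫ u in (0:ℝ)..u₁, u ^ 2 * (Real.log u₁ - Real.log u) = u₁ ^ 3 / 9 := by
  -- antiderivative  u^3/3 (log u₁ - log u) + u^3/9
  have hcont : Continuous (fun u : ℝ => u ^ 3 / 3 * Real.log u₁ - u ^ 2 / 3 * (u * Real.log u) + u ^ 3 / 9) := by
    have := Real.continuous_mul_log
    fun_prop
  have hder : ∀ u ∈ Ioo (0:ℝ) u₁, HasDerivAt
      (fun u : ℝ => u ^ 3 / 3 * Real.log u₁ - u ^ 2 / 3 * (u * Real.log u) + u ^ 3 / 9)
      (u ^ 2 * (Real.log u₁ - Real.log u)) u := by
    intro u hu
    have hu0 : u ≠ 0 := hu.1.ne'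
    have h1 : HasDerivAt (fun u : ℝ => u ^ 3 / 3 * Real.log u₁) (3 * u ^ 2 / 3 * Real.log u₁) u := by
      simpa using ((hasDerivAt_pow 3 u).div_const 3).mul_const (Real.log u₁)
    have h2 : HasDerivAt (fun u : ℝ => u ^ 2 / 3 * (u * Real.log u))
        (2 * u / 3 * (u * Real.log u) + u ^ 2 / 3 * (1 * Real.log u + u * u⁻¹)) u := by
      have h := ((hasDerivAt_pow 2 u).div_const 3).mul ((hasDerivAt_id' u).mul (Real.hasDerivAt_log hu0))
      refine (h.congr_deriv ?_).congr_of_eventuallyEq ?_
      · simp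
      · exact Filter.Eventually.of_forall fun x => by simp
    have h3 : HasDerivAt (fun u : ℝ => u ^ 3 / 9) (3 * u ^ 2 / 9) u := by
      simpa using (hasDerivAt_pow 3 u).div_const 9
    have := (h1.sub h2).add h3
    refine this.congr_deriv ?_
    have e : u * u⁻¹ = 1 := mul_inv_cancel₀ hu0
    rw [e]
    ring
  have hint : IntervalIntegrable (fun u => u ^ 2 * (Real.log u₁ - Real.log u)) volume 0 u₁ := by
    have h1 : IntervalIntegrable (fun u : ℝ => Real.log u₁ - Real.log u) volume 0 u₁ :=
      (by simp : IntervalIntegrable (fun _ : ℝ => Real.log u₁) volume 0 u₁).sub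
        intervalIntegral.intervalIntegrable_log'
    exact h1.continuousOn_mul (by fun_prop)
  rw [intervalIntegral.integral_eq_sub_of_hasDerivAt_of_le h.le hcont.continuousOn hder hint]
  have : u₁ ^ 3 / 3 * Real.log u₁ - u₁ ^ 2 / 3 * (u₁ * Real.log u₁) + u₁ ^ 3 / 9 = u₁ ^ 3 / 9 := by ring
  rw [this]
  simp

end E38
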