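import Pool.Agent.Helper52.EHP.Basic
import Pool.Agent.Helper6.E38.Penalty

/-!
Module M3 (PEN) of MP_28e671_an.
-/

open Real MeasureTheory Set

namespace EHP

variable {ι : Type*} [Fintype ι]

theorem intervalIntegrable_log_sq_sub (s l r : ℝ) :
    IntervalIntegrable (fun u : ℝ => log (-1 + u ^ 2 - s)) volume l r := by
  have h : MeromorphicOn (fun u : ℝ => -1 + u ^ 2 - s) (uIcc l r) := by
    intro x _
    have : AnalyticAt ℝ (fun u : ℝ => -1 + u ^ 2 - s) x := by fun_prop
    exact this.meromorphicAt
  exact h.intervalIntegrable_log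

theorem pot_intervalIntegrable (c t : ι → ℝ) (l r : ℝ) :
    IntervalIntegrable (fun u => pot c t (-1 + u ^ 2)) volume l r := by
  have e : (fun u => pot c t (-1 + u ^ 2)) = ∑ i, fun u => c i * log (-1 + u ^ 2 - t i) := by
    funext u
    simp [pot]
  rw [e]
  exact IntervalIntegrable.sum Finset.univ
    (fun i _ => (intervalIntegrable_log_sq_sub (t i) l r).const_mul (c i))

theorem int_log_left {U : ℝ} (hU : 0 < U) : (∫ u in (0:ℝ)..U, log (U / u)) = U := by
  refine Eq.trans ?_ (E38.integral_log_ratio (u₁ := U))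
  apply intervalIntegral.integral_congr_Ioo_of_le hU.le
  intro u hu
  exact log_div hU.ne' hu.1.ne'

theorem int_log_left' {U y : ℝ} (hU : 0 < U) (hy : 0 < y) :
    (∫ u in (0:ℝ)..U, log (U / u) * (u ^ 2 / (u ^ 2 + y ^ 2))) ≤ U ^ 3 / (9 * y ^ 2) := by
  have h1 : (∫ u in (0:ℝ)..U, log (U / u) * (u ^ 2 / (u ^ 2 + y ^ 2)))
      = ∫ u in (0:ℝ)..U, (log U - log u) * (u ^ 2 / (u ^ 2 + y ^ 2)) := by
    apply intervalIntegral.integral_congr_Ioo_of_le hU.le
    intro u hu
    simp only
    rw [log_div hU.ne' hu.1.ne']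
  have hlog : IntervalIntegrable (fun u : ℝ => log U - log u) volume 0 U :=
    (by simp : IntervalIntegrable (fun _ : ℝ => log U) volume 0 U).sub
      intervalIntegral.intervalIntegrable_log'
  have h2 : (∫ u in (0:ℝ)..U, (log U - log u) * (u ^ 2 / (u ^ 2 + y ^ 2)))
      ≤ ∫ u in (0:ℝ)..U, (1 / y ^ 2) * (u ^ 2 * (log U - log u)) := by
    apply intervalIntegral.integral_mono_on_of_le_Ioo hU.le
    · apply hlog.mul_continuousOn
      apply Continuous.continuousOn
      exact Continuous.div (by fun_prop) (by fun_prop) (fun u => by positivity)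
    · apply IntervalIntegrable.const_mul
      exact hlog.continuousOn_mul (by fun_prop)
    · intro u hu
      have h3 : 0 ≤ log U - log u := sub_nonneg.2 (log_le_log hu.1 hu.2.le)
      have h4 : u ^ 2 / (u ^ 2 + y ^ 2) ≤ u ^ 2 / y ^ 2 := by
        apply div_le_div_of_nonneg_left (by positivity) (by positivity)
        nlinarith [sq_nonneg u]
      calc (log U - log u) * (u ^ 2 / (u ^ 2 + y ^ 2)) ≤ (log U - log u) * (u ^ 2 / y ^ 2) := by gcongr
        _ = _ := by ring
  rw [h1]
  refine h2.trans (le_of_eq ?_)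
  rw [intervalIntegral.integral_const_mul, E38.integral_sq_log_ratio hU]
  field_simp

/-- pointwise bound on the component of `-1` -/
theorem penalty_left {c t : ι → ℝ} {a b m e α : ℝ} (N : Nrm c t a b m e α) (he : -1 < e) {u : ℝ}
    (hu : 0 < u) (hu' : u < √(1 + e)) :
    -pot c t (-1 + u ^ 2) ≤ 2 * (∑ i, if t i = -1 then c i else 0) * log (√(1 + e) / u) := by
  classical
  have h0 : 0 < √(1 + e) := hu.trans hu'
  have hsq : √(1 + e) ^ 2 = 1 + e := sq_sqrt (by linarith)
  have key := E38.penalty0_pointwise Finset.univ c (fun i => 1 + t i) (fun i _ => (N.pos i).le) hu hu'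
    (fun i _ => by
      rcases lt_trichotomy (t i) e with h | h | h
      · left; rw [N.left i h]; ring
      · exact absurd h (N.e_not i)
      · right; rw [hsq]; linarith)
    (by
      have h1 := (N.pe he).1
      unfold pot at h1
      rw [← h1]
      apply Finset.sum_congr rfl
      intro i _
      rw [hsq, log_abs]
      congr 2
      ring)
  rw [Finset.sum_filter] at key
  rw [log_div h0.ne' hu.ne']
  have e1 : ∑ i, c i * log |u ^ 2 - (1 + t i)| = pot c t (-1 + u ^ 2) := by
    unfold pot
    apply Finset.sum_congr rfl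
    intro i _
    rw [log_abs]
    congr 2
    ring
  rw [e1] at key
  have e2 : (∑ i, if 1 + t i = 0 then c i else 0) = ∑ i, if t i = -1 then c i else 0 := by
    apply Finset.sum_congr rfl
    intro i _
    have : (1 + t i = 0) ↔ (t i = -1) := by constructor <;> intro h <;> linarith
    simp only [this]
  rw [e2] at key
  exact key

theorem penalty {c t : ι → ℝ} (hS : Sys c t) {l r : ℝ} (hl : -1 ≤ l) (hlr : l < r)
    (pl : pot c t l = 0) (pr : pot c t r = 0) (nl : ∀ i, t i ≠ l) (nr : ∀ i, t i ≠ r) :
    (∫ u in √(1 + l)..√(1 + r), -pot c t (-1 + u ^ 2)) ≤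
      (∑ i, if l < t i ∧ t i < r then c i else 0) * (√(1 + r) - √(1 + l)) := by
  classical
  set α := √(1 + l) with hα
  set β := √(1 + r) with hβ
  have hα0 : 0 ≤ α := sqrt_nonneg _
  have hαβ : α < β := sqrt_lt_sqrt (by linarith) (by linarith)
  have hαsq : α ^ 2 = 1 + l := sq_sqrt (by linarith)
  have hβsq : β ^ 2 = 1 + r := sq_sqrt (by linarith)
  obtain ⟨V, hV⟩ : ∃ V : ι → ℝ, V = fun i => √(1 + t i) := ⟨_, rfl⟩
  have hV0 : ∀ i, 0 ≤ V i := fun i => by rw [hV]; exact sqrt_nonneg _
  have hVsq : ∀ i, V i ^ 2 = 1 + t i := fun i => by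
    rw [hV]; exact sq_sqrt (by linarith [(hS.mem i).1])
  -- poles
  let w : ι ⊕ ι → ℝ := Sum.elim c c
  let v : ι ⊕ ι → ℝ := Sum.elim V (fun i => -V i)
  have hlog : ∀ (x : ℝ) (i : ι), x ≠ V i → x ≠ -V i →
      c i * log |x - V i| + c i * log |x - -V i| = c i * log (-1 + x ^ 2 - t i) := by
    intro x i h1 h2
    rw [log_abs, log_abs, ← mul_add, ← log_mul (sub_ne_zero.2 h1) (sub_ne_zero.2 h2)]
    congr 2
    have := hVsq i
    linear_combination -this
  have hαV : ∀ i, α ≠ V i ∧ α ≠ -V i := by
    intro i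
    constructor
    · intro h
      apply nl i
      have := hVsq i
      rw [← h, hαsq] at this
      linarith
    · intro h
      apply nl i
      have := hVsq i
      have h2 : V i ^ 2 = α ^ 2 := by rw [h]; ring
      rw [h2, hαsq] at this
      linarith
  have hβV : ∀ i, β ≠ V i ∧ β ≠ -V i := by
    intro i
    constructor
    · intro h
      apply nr i
      have := hVsq i
      rw [← h, hβsq] at this
      linarith
    · intro h
      apply nr i
      have := hVsq i
      have h2 : V i ^ 2 = β ^ 2 := by rw [h]; ring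
      rw [h2, hβsq] at this
      linarith
  have hsum : ∀ x : ℝ, (∀ i, x ≠ V i ∧ x ≠ -V i) →
      ∑ j, w j * log |x - v j| = pot c t (-1 + x ^ 2) := by
    intro x hx
    rw [Fintype.sum_sum_type, ← Finset.sum_add_distrib]
    unfold pot
    apply Finset.sum_congr rfl
    intro i _
    exact hlog x i (hx i).1 (hx i).2
  have key := E38.penalty Finset.univ w v
    (fun j _ => by rcases j with i | i <;> exact (hS.pos i).le) hαβ
    (fun j _ => by
      rcases j with i | i
      · exact (hαV i).1.symm
      · exact (hαV i).2.symm)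
    (fun j _ => by
      rcases j with i | i
      · exact (hβV i).1.symm
      · exact (hβV i).2.symm)
    (by
      rw [hsum α hαV, hαsq]
      rw [← pl]; congr 1; ring)
    (by
      rw [hsum β hβV, hβsq]
      rw [← pr]; congr 1; ring)
  have e1 : (∫ u in α..β, -pot c t (-1 + u ^ 2)) = -(∫ u in α..β, ∑ j, w j * log |u - v j|) := by
    rw [intervalIntegral.integral_neg]
    congr 1
    apply intervalIntegral.integral_congr_ae
    have hfin : (Set.range V ∪ Set.range (fun i => -V i)).Finite :=
      (Set.finite_range _).union (Set.finite_range _)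
    have hae : ∀ᵐ u : ℝ, u ∉ (Set.range V ∪ Set.range (fun i => -V i)) :=
      hfin.countable.ae_notMem volume
    filter_upwards [hae] with u hu _
    rw [hsum u]
    intro i
    constructor
    · intro h
      exact hu (Or.inl ⟨i, h.symm⟩)
    · intro h
      exact hu (Or.inr ⟨i, h.symm⟩)
  rw [e1]
  refine key.trans (le_of_eq ?_)
  congr 1
  rw [Finset.sum_filter, Fintype.sum_sum_type]
  have e2 : ∑ i : ι, (if α < v (Sum.inr i) ∧ v (Sum.inr i) < β then w (Sum.inr i) else 0) = 0 := by
    apply Finset.sum_eq_zero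
    intro i _
    rw [if_neg]
    rintro ⟨h1, -⟩
    have h2 : α < -V i := h1
    have := hV0 i
    linarith
  rw [e2, add_zero]
  apply Finset.sum_congr rfl
  intro i _
  have e3 : (α < v (Sum.inl i) ∧ v (Sum.inl i) < β) ↔ (l < t i ∧ t i < r) := by
    show (α < V i ∧ V i < β) ↔ _
    have h1 : α < V i ↔ l < t i := by
      rw [← sq_lt_sq₀ hα0 (hV0 i), hαsq, hVsq]
      constructor <;> intro h <;> linarith
    have h2 : V i < β ↔ t i < r := by
      rw [← sq_lt_sq₀ (hV0 i) (hα0.trans hαβ.le), hβsq, hVsq]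
      constructor <;> intro h <;> linarith
    rw [h1, h2]
  simp only [e3]
  rfl

end EHP
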